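import Pool.Agent.helper78.NLS.Spec

/-! # Project nls: (MP_70a088_an): module LIO -/

set_option autoImplicit false

open Complex Metric Set Filter Topology MeasureTheory MPS
open Pool.Agent.helper98.ILF Pool.Agent.helper16.Multibrot

noncomputable section

namespace NLS

theorem LIO_prim (n : ℕ) (hn : n ≠ 0) : IsPrimitiveRoot (om n) n := by
  have h := Complex.isPrimitiveRoot_exp n hn
  unfold om
  exact h

theorem LIO_norm (n : ℕ) : ‖om n‖ = 1 := by
  unfold om
  rw [Complex.norm_exp]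
  have : (2 * (Real.pi : ℂ) * I / (n : ℂ)).re = 0 := by
    rw [show (2 * (Real.pi : ℂ) * I / (n : ℂ)) = ((2 * Real.pi / n : ℝ) : ℂ) * I by push_cast; ring]
    simp
  rw [this, Real.exp_zero]

theorem LIO_small (n : ℕ) (E : ℂ → ℂ) (hE : Differentiable ℂ E) (hs : ∀ z, E (om n * z) = E z)
    (m : ℕ) (hm : 0 < m) (hmn : m < n) : iteratedDeriv m E 0 = 0 := by
  have h1 : (fun x => E (om n * x)) = E := funext hs
  have h2 := iteratedDeriv_comp_const_mul (𝕜 := ℂ) (n := m) (f := E) hE.contDiff (om n)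
  rw [h1] at h2
  have h3 := congrFun h2 0
  simp only [mul_zero] at h3
  have h4 : om n ^ m ≠ 1 := (LIO_prim n (by omega)).pow_ne_one_of_pos_of_lt hm.ne' hmn
  have h5 : (om n ^ m - 1) * iteratedDeriv m E 0 = 0 := by
    rw [sub_mul, one_mul]
    rw [sub_eq_zero]
    exact h3.symm
  rcases mul_eq_zero.mp h5 with h | h
  · exact absurd (sub_eq_zero.mp h) h4
  · exact h

theorem LIO_big (n : ℕ) (E : ℂ → ℂ) (C : ℝ) (hn : 1 ≤ n) (hE : Differentiable ℂ E)
    (hb : ∀ z, ‖E z‖ ≤ C * (1 + ‖z‖) ^ (n - 1)) (m : ℕ) (hm : n ≤ m) : iteratedDeriv m E 0 = 0 := by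
  have hC : 0 ≤ C := by
    have := hb 0
    rw [norm_zero, add_zero, one_pow, mul_one] at this
    exact (norm_nonneg _).trans this
  have key : ∀ R : ℝ, 1 ≤ R → ‖iteratedDeriv m E 0‖ ≤ m.factorial * (C * 2 ^ (n - 1)) / R := by
    intro R hR
    have hR0 : 0 < R := by linarith
    have h1 := Complex.norm_iteratedDeriv_le_of_forall_mem_sphere_norm_le (c := 0) (R := R)
      (C := C * (1 + R) ^ (n - 1)) (f := E) m hR0 (hE.diffContOnCl) (by
        intro z hz
        rw [mem_sphere_zero_iff_norm] at hz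
        have := hb z
        rw [hz] at this
        exact this)
    refine h1.trans ?_
    have h2 : (1 + R) ^ (n - 1) ≤ 2 ^ (n - 1) * R ^ (n - 1) := by
      rw [← mul_pow]
      exact pow_le_pow_left₀ (by linarith) (by linarith) _
    have h3 : R ^ (n - 1) * R ≤ R ^ m := by
      rw [← pow_succ]
      exact pow_le_pow_right₀ hR (by omega)
    rw [div_le_div_iff₀ (by positivity) hR0]
    calc (m.factorial : ℝ) * (C * (1 + R) ^ (n - 1)) * R
        ≤ (m.factorial : ℝ) * (C * (2 ^ (n - 1) * R ^ (n - 1))) * R := by gcongr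
      _ = (m.factorial : ℝ) * (C * 2 ^ (n - 1)) * (R ^ (n - 1) * R) := by ring
      _ ≤ (m.factorial : ℝ) * (C * 2 ^ (n - 1)) * R ^ m := by gcongr
  have hz : ‖iteratedDeriv m E 0‖ ≤ 0 := by
    have ht : Tendsto (fun R : ℝ => (m.factorial : ℝ) * (C * 2 ^ (n - 1)) / R) atTop (𝓝 0) :=
      tendsto_const_nhds.div_atTop tendsto_id
    refine ge_of_tendsto ht ?_
    filter_upwards [eventually_ge_atTop (1 : ℝ)] with R hR using key R hR
  exact norm_le_zero_iff.mp hz

theorem LIO : LIO_stmt := by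
  intro n E C hn hE hb hs z
  have h1 := Complex.taylorSeries_eq_of_entire' hE (c := 0) (z := z)
  rw [← h1]
  rw [tsum_eq_single 0]
  · simp
  · intro m hm
    have : iteratedDeriv m E 0 = 0 := by
      rcases lt_or_ge m n with h | h
      · exact LIO_small n E hE hs m (Nat.pos_of_ne_zero hm) h
      · exact LIO_big n E C hn hE hb m h
    rw [this]
    simp

end NLS
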